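import Pool.Agent.helper72.UP.Spec

set_option autoImplicit false

namespace Pool.Agent.helper72.UP

open Finset

/-- the indicator vector of a set -/
noncomputable def LOW_ind {n : ℕ} (s : Finset (Fin n)) : Fin n → ℝ := fun i => if i ∈ s then 1 else 0

lemma LOW_inj {n : ℕ} : Function.Injective (LOW_ind (n := n)) := by
  intro s t h
  ext i
  have h1 := congrFun h i
  unfold LOW_ind at h1
  by_cases hs : i ∈ s <;> by_cases ht : i ∈ t <;> simp [hs, ht] at h1 ⊢

/-- the weights -/
noncomputable def LOW_x (n : ℕ) : Fin n → ℝ := fun i => if i.val < (n + 1) / 2 then 1 else -1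

lemma LOW_abs (n : ℕ) (i : Fin n) : |LOW_x n i| = 1 := by
  unfold LOW_x
  split_ifs <;> simp

lemma LOW_ne (n : ℕ) (i : Fin n) : LOW_x n i ≠ 0 := by
  unfold LOW_x
  split_ifs <;> norm_num

lemma LOW_pos (n : ℕ) (i : Fin n) : 0 < LOW_x n i ↔ i.val < (n + 1) / 2 := by
  unfold LOW_x
  split_ifs with h
  · simp [h]
  · constructor
    · intro h1
      norm_num at h1
    · intro h1
      exact absurd h1 h

lemma LOW_neg (n : ℕ) (i : Fin n) : LOW_x n i < 0 ↔ ¬ (i.val < (n + 1) / 2) := by
  unfold LOW_x
  split_ifs with h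
  · constructor
    · intro h1
      norm_num at h1
    · intro h1
      exact absurd h h1
  · simp [h]

lemma LOW_cnt (n m : ℕ) (hm : m ≤ n) : (univ.filter (fun a : Fin n => a.val < m)).card = m := by
  rw [Finset.card_filter, Fin.sum_univ_eq_sum_range (fun i => if i < m then 1 else 0) n, ← Finset.card_filter]
  have h1 : (range n).filter (fun i => i < m) = range m := by
    ext i
    simp only [mem_filter, mem_range]
    omega
  rw [h1, card_range]

lemma LOW_cnt' (n m : ℕ) (hm : m ≤ n) : (univ.filter (fun a : Fin n => ¬ (a.val < m))).card = n - m := by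
  have h1 := Finset.card_filter_add_card_filter_not (s := (univ : Finset (Fin n))) (fun a : Fin n => a.val < m)
  rw [LOW_cnt n m hm, card_univ, Fintype.card_fin] at h1
  omega

theorem LOW (h : EQC_stmt) : LOW_stmt := by
  classical
  intro n k
  have h1 := h n k (LOW_x n) 1 one_pos (LOW_abs n)
  have hA : (univ.filter (fun a : Fin n => 0 < LOW_x n a)).card = (n + 1) / 2 := by
    have h2 : (univ.filter (fun a : Fin n => 0 < LOW_x n a)) = univ.filter (fun a : Fin n => a.val < (n + 1) / 2) := by
      ext a
      simp only [mem_filter, mem_univ, true_and]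
      exact LOW_pos n a
    rw [h2]
    exact LOW_cnt n _ (by omega)
  have hB : (univ.filter (fun a : Fin n => LOW_x n a < 0)).card = n / 2 := by
    have h2 : (univ.filter (fun a : Fin n => LOW_x n a < 0)) = univ.filter (fun a : Fin n => ¬ (a.val < (n + 1) / 2)) := by
      ext a
      simp only [mem_filter, mem_univ, true_and]
      exact LOW_neg n a
    rw [h2, LOW_cnt' n _ (by omega)]
    omega
  have h2 : zer (LOW_x n) k = VV n k := by
    rw [h1]
    unfold VV uu
    refine Finset.sum_congr rfl (fun i _ => ?_)
    rw [← hA, ← hB]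
  set Z : Finset (Finset (Fin n)) := univ.filter (fun s : Finset (Fin n) => s.Nonempty ∧ #s ≤ k ∧ ∑ i ∈ s, LOW_x n i = 0) with hZ
  have h3 : Z.card = VV n k := by
    rw [← h2, hZ]
    unfold zer
    rfl
  refine ⟨Z.image LOW_ind, ?_, ?_, ?_⟩
  · intro v hv
    rw [mem_image] at hv
    obtain ⟨s, hs, rfl⟩ := hv
    rw [hZ, mem_filter] at hs
    obtain ⟨-, hs1, hs2, hs3⟩ := hs
    refine ⟨?_, ?_, ?_⟩
    · intro i
      unfold LOW_ind
      by_cases hi : i ∈ s
      · right
        simp [hi]
      · left
        simp [hi]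
    · obtain ⟨i, hi⟩ := hs1
      intro h0
      have h4 := congrFun h0 i
      unfold LOW_ind at h4
      simp [hi] at h4
    · have h4 : univ.filter (fun i => LOW_ind s i = 1) = s := by
        ext i
        unfold LOW_ind
        simp
      rw [h4]
      exact hs2
  · intro i hi
    let φ : (Fin n → ℝ) →ₗ[ℝ] ℝ :=
      { toFun := fun v => ∑ j, v j * LOW_x n j
        map_add' := by
          intro v w
          simp only [Pi.add_apply, add_mul, Finset.sum_add_distrib]
        map_smul' := by
          intro c v
          simp only [Pi.smul_apply, smul_eq_mul, mul_assoc, Finset.mul_sum, RingHom.id_apply] }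
    have h4 : Submodule.span ℝ ((Z.image LOW_ind : Finset (Fin n → ℝ)) : Set (Fin n → ℝ)) ≤ LinearMap.ker φ := by
      rw [Submodule.span_le]
      intro v hv
      rw [mem_coe, mem_image] at hv
      obtain ⟨s, hs, rfl⟩ := hv
      rw [hZ, mem_filter] at hs
      show φ (LOW_ind s) = 0
      show ∑ j, LOW_ind s j * LOW_x n j = 0
      unfold LOW_ind
      simp only [ite_mul, one_mul, zero_mul]
      rw [Finset.sum_ite_mem, Finset.univ_inter]
      exact hs.2.2.2
    have h5 : φ (Pi.single i 1) = 0 := h4 hi
    have h6 : φ (Pi.single i 1) = LOW_x n i := by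
      show ∑ j, (Pi.single i 1 : Fin n → ℝ) j * LOW_x n j = LOW_x n i
      rw [Finset.sum_eq_single i]
      · simp
      · intro j _ hj
        simp [hj]
      · intro h7
        exact absurd (mem_univ i) h7
    rw [h6] at h5
    exact LOW_ne n i h5
  · rw [Finset.card_image_of_injective _ LOW_inj, h3]

end Pool.Agent.helper72.UP
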